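import Pool.Agent.W2helper31.GP.Stm4

/-!
# Piece ALG of project GP (planar part)
-/

set_option autoImplicit false

namespace Pool.Agent.W2helper52.GP

open Pool.Agent.W2helper31.GP

theorem geom {n : ℕ} {ξ : ℂ} (hξ : IsPrimitiveRoot ξ n) {k : ℕ} (h0 : 0 < k) (hk : k < n) :
    ∑ j ∈ Finset.range n, (ξ ^ k) ^ j = 0 := by
  have h1 : ξ ^ k ≠ 1 := hξ.pow_ne_one_of_pos_of_lt h0.ne' hk
  rw [geom_sum_eq h1, ← pow_mul, mul_comm, pow_mul, hξ.pow_eq_one, one_pow, sub_self, zero_div]

theorem term {n : ℕ} (hn : 0 < n) (u : Fin n → ℂ) (z : ℂ) (j : ℕ) :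
    (((-1 : ℝ) ^ j * ∏ i, (starRingEnd ℂ (u i) *
        (Complex.exp ((Real.pi * j / n : ℝ) * Complex.I) * z)).re : ℝ) : ℂ) =
      1 / 2 ^ n * ∑ S ∈ (Finset.univ : Finset (Fin n)).powerset,
        ((Complex.exp (2 * Real.pi * Complex.I / n)) ^ S.card) ^ j *
          ((∏ i ∈ S, starRingEnd ℂ (u i) * z) *
            ∏ i ∈ Finset.univ \ S, starRingEnd ℂ (starRingEnd ℂ (u i) * z)) := by
  have hn' : (n : ℂ) ≠ 0 := by exact_mod_cast hn.ne'
  set e := Complex.exp ((Real.pi * j / n : ℝ) * Complex.I) with he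
  have hconj : starRingEnd ℂ e = e⁻¹ := by
    rw [he, ← Complex.exp_conj, ← Complex.exp_neg]
    congr 1
    rw [map_mul, Complex.conj_ofReal, Complex.conj_I, mul_neg]
  have he0 : e ≠ 0 := Complex.exp_ne_zero _
  have hen : e ^ n = (-1) ^ j := by
    rw [he, ← Complex.exp_nat_mul, ← Complex.exp_pi_mul_I, ← Complex.exp_nat_mul]
    congr 1
    push_cast
    field_simp
  have he2 : e ^ 2 = Complex.exp (2 * Real.pi * Complex.I / n) ^ j := by
    rw [he, ← Complex.exp_nat_mul, ← Complex.exp_nat_mul]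
    congr 1
    push_cast
    field_simp
  rw [Complex.ofReal_mul, Complex.ofReal_prod]
  have h1 : ∀ i, (((starRingEnd ℂ (u i) * (e * z)).re : ℝ) : ℂ) =
      (e * (starRingEnd ℂ (u i) * z) + e⁻¹ * starRingEnd ℂ (starRingEnd ℂ (u i) * z)) / 2 := by
    intro i
    rw [Complex.re_eq_add_conj, show starRingEnd ℂ (u i) * (e * z) =
      e * (starRingEnd ℂ (u i) * z) by ring, map_mul, hconj]
  simp only [h1]
  rw [Finset.prod_div_distrib, Finset.prod_const, Finset.card_univ, Fintype.card_fin,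
    Finset.prod_add, Finset.sum_div, Finset.mul_sum, Finset.mul_sum]
  refine Finset.sum_congr rfl fun S hS => ?_
  have hc : (Finset.univ \ S).card = n - S.card := by
    rw [Finset.card_sdiff_of_subset (Finset.subset_univ S), Finset.card_univ, Fintype.card_fin]
  have hSn : S.card ≤ n := by
    simpa using Finset.card_le_univ S
  have e1 : ∏ i ∈ S, e * (starRingEnd ℂ (u i) * z) =
      e ^ S.card * ∏ i ∈ S, starRingEnd ℂ (u i) * z := by
    rw [Finset.prod_mul_distrib, Finset.prod_const]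
  have e2 : ∏ i ∈ Finset.univ \ S, e⁻¹ * starRingEnd ℂ (starRingEnd ℂ (u i) * z) =
      e⁻¹ ^ (n - S.card) * ∏ i ∈ Finset.univ \ S, starRingEnd ℂ (starRingEnd ℂ (u i) * z) := by
    rw [Finset.prod_mul_distrib, Finset.prod_const, hc]
  rw [e1, e2]
  have h2 : ((-1 : ℂ)) ^ j * (e ^ S.card * e⁻¹ ^ (n - S.card)) =
      (Complex.exp (2 * Real.pi * Complex.I / n) ^ S.card) ^ j := by
    have h3 : e ^ (n - S.card) * e⁻¹ ^ (n - S.card) = 1 := by
      rw [← mul_pow, mul_inv_cancel₀ he0, one_pow]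
    have h4 : e ^ n = e ^ S.card * e ^ (n - S.card) := by
      rw [← pow_add]
      congr 1
      omega
    rw [← hen, h4]
    calc e ^ S.card * e ^ (n - S.card) * (e ^ S.card * e⁻¹ ^ (n - S.card))
        = (e ^ 2) ^ S.card * (e ^ (n - S.card) * e⁻¹ ^ (n - S.card)) := by ring
      _ = (Complex.exp (2 * Real.pi * Complex.I / n) ^ j) ^ S.card := by
          rw [h3, mul_one, he2]
      _ = _ := by
          rw [← pow_mul, ← pow_mul, mul_comm j]
  push_cast
  rw [← h2]
  ring

theorem p_ALG : P_ALG := by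
  intro n u z hn
  have hξ := Complex.isPrimitiveRoot_exp n hn.ne'
  have hne : (∅ : Finset (Fin n)) ≠ Finset.univ := by
    intro h
    have := congrArg Finset.card h
    simp at this
    omega
  apply Complex.ofReal_injective
  rw [Complex.ofReal_sum]
  simp only [term hn u z]
  rw [← Finset.mul_sum, Finset.sum_comm]
  simp only [← Finset.sum_mul]
  rw [Finset.sum_eq_add ∅ Finset.univ hne]
  · rw [Finset.card_empty, pow_zero, Finset.prod_empty, one_mul, Finset.sdiff_empty,
      Finset.card_univ, Fintype.card_fin, hξ.pow_eq_one, Finset.sdiff_self, Finset.prod_empty,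
      mul_one]
    simp only [one_pow, Finset.sum_const, Finset.card_range, nsmul_eq_mul, mul_one]
    have h1 : ∏ i, starRingEnd ℂ (u i) * z = starRingEnd ℂ (∏ i, u i) * z ^ n := by
      rw [Finset.prod_mul_distrib, Finset.prod_const, Finset.card_univ, Fintype.card_fin, map_prod]
    have h2 : ∏ i, starRingEnd ℂ (starRingEnd ℂ (u i) * z) =
        starRingEnd ℂ (starRingEnd ℂ (∏ i, u i) * z ^ n) := by
      rw [← h1, map_prod]
    rw [h1, h2]
    push_cast
    rw [Complex.re_eq_add_conj]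
    field_simp
    ring
  · rintro S - ⟨h1, h2⟩
    rw [geom hξ, zero_mul]
    · exact Finset.card_pos.2 (Finset.nonempty_iff_ne_empty.2 h1)
    · have h3 := (Finset.card_lt_iff_ne_univ S).2 h2
      simpa using h3
  · intro h
    exact absurd (Finset.empty_mem_powerset _) h
  · intro h
    exact absurd (Finset.mem_powerset_self _) h

end Pool.Agent.W2helper52.GP
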